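import Mathlib
import Pool.Agent.Q104.TA.Tame
import Pool.Agent.Q104.TA.NoAn

/-!
# A finitely generated torsion-free nilpotent group with a tame automorphism and without Anosov
automorphisms

The group is the group of the pairs `(v, X)` of a vector `v` of `ℤ[i]²` and a skew-Hermitian
`2 × 2` matrix `X` over `ℤ[i]`, with `(v, X) (w, Y) = (v + w, X + Y + v w* - w v*)`.

`Tame φ`: for every `n > 0` the number of `φ ^ n`-conjugacy classes is finite (`x` and
`z y (φ ^ n z)⁻¹` are in the same class).

`IsEigenvalue φ μ`: `μ` is an eigenvalue of the map induced by `φ` on the complexification of the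
quotient `Z_{i+1} / Z_i` of the upper central series, for some `i` (the witness is an eigenvector
of the dual map: an additive map from `Z_{i+1}` to `ℂ` that vanishes on `Z_i`). For a finitely
generated torsion-free nilpotent group these are the eigenvalues of `φ` on the Lie algebra of the
rational completion.

`Anosov φ`: no eigenvalue of `φ` has absolute value `1`.
-/

set_option autoImplicit false

namespace Pool.Agent.Results.MP_82b8ed_al.TameNotAnosov

open Pool.Agent.Q104.TA

/-- There is a finitely generated torsion-free nilpotent group that has a tame automorphism and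
has no Anosov automorphism. -/
theorem result : ∃ (N : Type) (_ : Group N), Group.FG N ∧ Group.IsNilpotent N ∧
    (∀ (x : N) (n : ℕ), 0 < n → x ^ n = 1 → x = 1) ∧
    (∃ φ : MulAut N, Tame φ) ∧ ∀ φ : MulAut N, ¬ Anosov φ := by
  refine ⟨N, inferInstance, ?_, ⟨2, ?_⟩, ?_, ⟨act U0, tame⟩, not_anosov⟩
  · obtain ⟨S, hS, hSf⟩ := AddGroup.fg_iff.1 (Module.Finite.iff_addGroup_fg.1
      (inferInstance : Module.Finite ℤ V))
    obtain ⟨T, hT, hTf⟩ := AddGroup.fg_iff.1 (Module.Finite.iff_addGroup_fg.1
      (inferInstance : Module.Finite ℤ SH))
    rw [Group.fg_iff]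
    refine ⟨N.l '' S ∪ N.c '' T, ?_, (hSf.image _).union (hTf.image _)⟩
    set K := Subgroup.closure (N.l '' S ∪ N.c '' T) with hK
    have hc : ∀ X : SH, N.c X ∈ K := by
      intro X
      have hX : X ∈ AddSubgroup.closure T := by
        rw [hT]
        trivial
      induction hX using AddSubgroup.closure_induction with
      | mem X hX => exact Subgroup.subset_closure (Or.inr ⟨X, hX, rfl⟩)
      | zero => exact K.one_mem
      | add X Y _ _ h1 h2 =>
        rw [N.c_add]
        exact K.mul_mem h1 h2
      | neg X _ h =>
        have e : N.c (-X) = (N.c X)⁻¹ := by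
          apply N.ext
          · simp
          · rfl
        rw [e]
        exact K.inv_mem h
    have hl : ∀ v : V, N.l v ∈ K := by
      intro v
      have hv : v ∈ AddSubgroup.closure S := by
        rw [hS]
        trivial
      induction hv using AddSubgroup.closure_induction with
      | mem v hv => exact Subgroup.subset_closure (Or.inl ⟨v, hv, rfl⟩)
      | zero => exact K.one_mem
      | add v w _ _ h1 h2 =>
        rw [N.l_add]
        exact K.mul_mem (K.mul_mem h1 h2) (hc _)
      | neg v _ h =>
        have e : N.l (-v) = (N.l v)⁻¹ := by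
          apply N.ext
          · rfl
          · simp
        rw [e]
        exact K.inv_mem h
    rw [eq_top_iff]
    intro a _
    rw [N.eq_l_mul_c a]
    exact K.mul_mem (hl _) (hc _)
  · rw [eq_top_iff]
    intro x _
    rw [Subgroup.mem_upperCentralSeries_succ_iff]
    intro y
    rw [Subgroup.upperCentralSeries_one, mem_center, commutatorElement_def, N.comm_eq]
    rfl
  · intro x n hn hx
    have hv : (n : ℤ) • x.v = 0 := by
      rw [natCast_zsmul, ← N.pow_v, hx]
      rfl
    have hX : (n : ℤ) • x.X = 0 := by
      rw [natCast_zsmul, ← N.pow_X, hx]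
      rfl
    have hn' : (n : ℤ) ≠ 0 := by omega
    apply N.ext
    · exact (smul_eq_zero.1 hv).resolve_left hn'
    · exact (smul_eq_zero.1 hX).resolve_left hn'

end Pool.Agent.Results.MP_82b8ed_al.TameNotAnosov
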